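import Pool.Agent.Helper15.T4.Stmts

set_option autoImplicit false

/-!
MP_e0a484_co, module POS2: the Hessian at the peak of the second model is positive definite, with the
constant 6/5.
-/

open Finset

namespace Pool.Agent.Helper11.T4

open Pool.Agent.Helper15.T4

/-- Different edge colours. -/
def pos2_n1 (i j : L1) : ℤ := if i.1 = j.1 then 0 else 1

/-- Different edge colours, and the vertex colour of the second label is not the edge colour of the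
first. -/
def pos2_n2 (i j : L1) : ℤ := if i.1 = j.1 ∨ vc j = i.1 then 0 else 1

/-- Different edge colours and the same vertex colour. -/
def pos2_n4 (i j : L1) : ℤ := if i.1 ≠ j.1 ∧ vc i = vc j then 1 else 0

/-- Nine times the real part. -/
def AZ (i j : L1) : ℤ :=
  2 * pos2_n1 i j + 3 * (pos2_n2 i j + pos2_n2 j i) - 9 * pos2_n4 i j

/-- Nine times the imaginary part, divided by the root of two. -/
def BZ (i j : L1) : ℤ := -4 * pos2_n1 i j + 3 * (pos2_n2 i j + pos2_n2 j i)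

/-- The real part. -/
noncomputable def MA (i j : L1) : ℝ := (AZ i j : ℝ) / 9

/-- The imaginary part, divided by the root of two. -/
noncomputable def MB (i j : L1) : ℝ := (BZ i j : ℝ) / 9

theorem pos2_r2 (a0 a1 a2 a3 a4 a5 a6 a7 a8 a9 a10 a11 : ℝ)
    (ht : a0 + a1 + a2 + a3 + a4 + a5 + a6 + a7 + a8 + a9 + a10 + a11 = 0) :
    (2/9 * a3 + 5/9 * a4 + 5/9 * a5 + 5/9 * a6 - 1/9 * a7 + 8/9 * a8 + 5/9 * a9 - 1/9 * a10 +
      8/9 * a11) ^ 2 + 2 * (0 - 4/9 * a3 - 1/9 * a4 - 1/9 * a5 - 1/9 * a6 + 2/9 * a7 + 2/9 * a8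
      - 1/9 * a9 + 2/9 * a10 + 2/9 * a11) ^ 2 + (5/9 * a3 - 1/9 * a4 + 8/9 * a5 + 2/9 * a6 +
      5/9 * a7 + 5/9 * a8 + 5/9 * a9 + 8/9 * a10 - 1/9 * a11) ^ 2 + 2 * (0 - 1/9 * a3 + 2/9 *
      a4 + 2/9 * a5 - 4/9 * a6 - 1/9 * a7 - 1/9 * a8 - 1/9 * a9 + 2/9 * a10 + 2/9 * a11) ^ 2 +
      (5/9 * a3 + 8/9 * a4 - 1/9 * a5 + 5/9 * a6 + 8/9 * a7 - 1/9 * a8 + 2/9 * a9 + 5/9 * a10 +
      5/9 * a11) ^ 2 + 2 * (0 - 1/9 * a3 + 2/9 * a4 + 2/9 * a5 - 1/9 * a6 + 2/9 * a7 + 2/9 * a8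
      - 4/9 * a9 - 1/9 * a10 - 1/9 * a11) ^ 2 + (2/9 * a0 + 5/9 * a1 + 5/9 * a2 - 1/9 * a6 +
      5/9 * a7 + 8/9 * a8 - 1/9 * a9 + 5/9 * a10 + 8/9 * a11) ^ 2 + 2 * (0 - 4/9 * a0 - 1/9 *
      a1 - 1/9 * a2 + 2/9 * a6 - 1/9 * a7 + 2/9 * a8 + 2/9 * a9 - 1/9 * a10 + 2/9 * a11) ^ 2 +
      (5/9 * a0 - 1/9 * a1 + 8/9 * a2 + 5/9 * a6 + 2/9 * a7 + 5/9 * a8 + 8/9 * a9 + 5/9 * a10 -
      1/9 * a11) ^ 2 + 2 * (0 - 1/9 * a0 + 2/9 * a1 + 2/9 * a2 - 1/9 * a6 - 4/9 * a7 - 1/9 * a8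
      + 2/9 * a9 - 1/9 * a10 + 2/9 * a11) ^ 2 + (5/9 * a0 + 8/9 * a1 - 1/9 * a2 + 8/9 * a6 +
      5/9 * a7 - 1/9 * a8 + 5/9 * a9 + 2/9 * a10 + 5/9 * a11) ^ 2 + 2 * (0 - 1/9 * a0 + 2/9 *
      a1 + 2/9 * a2 + 2/9 * a6 - 1/9 * a7 + 2/9 * a8 - 1/9 * a9 - 4/9 * a10 - 1/9 * a11) ^ 2 +
      (5/9 * a0 + 2/9 * a1 + 5/9 * a2 - 1/9 * a3 + 5/9 * a4 + 8/9 * a5 - 1/9 * a9 + 8/9 * a10 +
      5/9 * a11) ^ 2 + 2 * (0 - 1/9 * a0 - 4/9 * a1 - 1/9 * a2 + 2/9 * a3 - 1/9 * a4 + 2/9 * a5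
      + 2/9 * a9 + 2/9 * a10 - 1/9 * a11) ^ 2 + (0 - 1/9 * a0 + 5/9 * a1 + 8/9 * a2 + 5/9 * a3
      + 2/9 * a4 + 5/9 * a5 + 8/9 * a9 - 1/9 * a10 + 5/9 * a11) ^ 2 + 2 * (2/9 * a0 - 1/9 * a1
      + 2/9 * a2 - 1/9 * a3 - 4/9 * a4 - 1/9 * a5 + 2/9 * a9 + 2/9 * a10 - 1/9 * a11) ^ 2 +
      (8/9 * a0 + 5/9 * a1 - 1/9 * a2 + 8/9 * a3 + 5/9 * a4 - 1/9 * a5 + 5/9 * a9 + 5/9 * a10 +
      2/9 * a11) ^ 2 + 2 * (2/9 * a0 - 1/9 * a1 + 2/9 * a2 + 2/9 * a3 - 1/9 * a4 + 2/9 * a5 -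
      1/9 * a9 - 1/9 * a10 - 4/9 * a11) ^ 2 + (5/9 * a0 + 5/9 * a1 + 2/9 * a2 - 1/9 * a3 + 8/9
      * a4 + 5/9 * a5 - 1/9 * a6 + 8/9 * a7 + 5/9 * a8) ^ 2 + 2 * (0 - 1/9 * a0 - 1/9 * a1 -
      4/9 * a2 + 2/9 * a3 + 2/9 * a4 - 1/9 * a5 + 2/9 * a6 + 2/9 * a7 - 1/9 * a8) ^ 2 + (0 -
      1/9 * a0 + 8/9 * a1 + 5/9 * a2 + 5/9 * a3 + 5/9 * a4 + 2/9 * a5 + 8/9 * a6 - 1/9 * a7 +
      5/9 * a8) ^ 2 + 2 * (2/9 * a0 + 2/9 * a1 - 1/9 * a2 - 1/9 * a3 - 1/9 * a4 - 4/9 * a5 +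
      2/9 * a6 + 2/9 * a7 - 1/9 * a8) ^ 2 + (8/9 * a0 - 1/9 * a1 + 5/9 * a2 + 8/9 * a3 - 1/9 *
      a4 + 5/9 * a5 + 5/9 * a6 + 5/9 * a7 + 2/9 * a8) ^ 2 + 2 * (2/9 * a0 + 2/9 * a1 - 1/9 * a2
      + 2/9 * a3 + 2/9 * a4 - 1/9 * a5 - 1/9 * a6 - 1/9 * a7 - 4/9 * a8) ^ 2 ≤
    24 / 5 * (a0 ^ 2 + a1 ^ 2 + a2 ^ 2 + a3 ^ 2 + a4 ^ 2 + a5 ^ 2 + a6 ^ 2 + a7 ^ 2 + a8 ^ 2 + a9 ^ 2 +
        a10 ^ 2 + a11 ^ 2) := by
  have key : 24 / 5 * (a0 ^ 2 + a1 ^ 2 + a2 ^ 2 + a3 ^ 2 + a4 ^ 2 + a5 ^ 2 + a6 ^ 2 + a7 ^ 2 + a8 ^ 2 + a9 ^ 2 +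
        a10 ^ 2 + a11 ^ 2) -
      ((2/9 * a3 + 5/9 * a4 + 5/9 * a5 + 5/9 * a6 - 1/9 * a7 + 8/9 * a8 + 5/9 * a9 - 1/9 * a10
        + 8/9 * a11) ^ 2 + 2 * (0 - 4/9 * a3 - 1/9 * a4 - 1/9 * a5 - 1/9 * a6 + 2/9 * a7 + 2/9
        * a8 - 1/9 * a9 + 2/9 * a10 + 2/9 * a11) ^ 2 + (5/9 * a3 - 1/9 * a4 + 8/9 * a5 + 2/9 *
        a6 + 5/9 * a7 + 5/9 * a8 + 5/9 * a9 + 8/9 * a10 - 1/9 * a11) ^ 2 + 2 * (0 - 1/9 * a3 +
        2/9 * a4 + 2/9 * a5 - 4/9 * a6 - 1/9 * a7 - 1/9 * a8 - 1/9 * a9 + 2/9 * a10 + 2/9 *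
        a11) ^ 2 + (5/9 * a3 + 8/9 * a4 - 1/9 * a5 + 5/9 * a6 + 8/9 * a7 - 1/9 * a8 + 2/9 * a9
        + 5/9 * a10 + 5/9 * a11) ^ 2 + 2 * (0 - 1/9 * a3 + 2/9 * a4 + 2/9 * a5 - 1/9 * a6 + 2/9
        * a7 + 2/9 * a8 - 4/9 * a9 - 1/9 * a10 - 1/9 * a11) ^ 2 + (2/9 * a0 + 5/9 * a1 + 5/9 *
        a2 - 1/9 * a6 + 5/9 * a7 + 8/9 * a8 - 1/9 * a9 + 5/9 * a10 + 8/9 * a11) ^ 2 + 2 * (0 -
        4/9 * a0 - 1/9 * a1 - 1/9 * a2 + 2/9 * a6 - 1/9 * a7 + 2/9 * a8 + 2/9 * a9 - 1/9 * a10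
        + 2/9 * a11) ^ 2 + (5/9 * a0 - 1/9 * a1 + 8/9 * a2 + 5/9 * a6 + 2/9 * a7 + 5/9 * a8 +
        8/9 * a9 + 5/9 * a10 - 1/9 * a11) ^ 2 + 2 * (0 - 1/9 * a0 + 2/9 * a1 + 2/9 * a2 - 1/9 *
        a6 - 4/9 * a7 - 1/9 * a8 + 2/9 * a9 - 1/9 * a10 + 2/9 * a11) ^ 2 + (5/9 * a0 + 8/9 * a1
        - 1/9 * a2 + 8/9 * a6 + 5/9 * a7 - 1/9 * a8 + 5/9 * a9 + 2/9 * a10 + 5/9 * a11) ^ 2 + 2
        * (0 - 1/9 * a0 + 2/9 * a1 + 2/9 * a2 + 2/9 * a6 - 1/9 * a7 + 2/9 * a8 - 1/9 * a9 - 4/9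
        * a10 - 1/9 * a11) ^ 2 + (5/9 * a0 + 2/9 * a1 + 5/9 * a2 - 1/9 * a3 + 5/9 * a4 + 8/9 *
        a5 - 1/9 * a9 + 8/9 * a10 + 5/9 * a11) ^ 2 + 2 * (0 - 1/9 * a0 - 4/9 * a1 - 1/9 * a2 +
        2/9 * a3 - 1/9 * a4 + 2/9 * a5 + 2/9 * a9 + 2/9 * a10 - 1/9 * a11) ^ 2 + (0 - 1/9 * a0
        + 5/9 * a1 + 8/9 * a2 + 5/9 * a3 + 2/9 * a4 + 5/9 * a5 + 8/9 * a9 - 1/9 * a10 + 5/9 *
        a11) ^ 2 + 2 * (2/9 * a0 - 1/9 * a1 + 2/9 * a2 - 1/9 * a3 - 4/9 * a4 - 1/9 * a5 + 2/9 *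
        a9 + 2/9 * a10 - 1/9 * a11) ^ 2 + (8/9 * a0 + 5/9 * a1 - 1/9 * a2 + 8/9 * a3 + 5/9 * a4
        - 1/9 * a5 + 5/9 * a9 + 5/9 * a10 + 2/9 * a11) ^ 2 + 2 * (2/9 * a0 - 1/9 * a1 + 2/9 *
        a2 + 2/9 * a3 - 1/9 * a4 + 2/9 * a5 - 1/9 * a9 - 1/9 * a10 - 4/9 * a11) ^ 2 + (5/9 * a0
        + 5/9 * a1 + 2/9 * a2 - 1/9 * a3 + 8/9 * a4 + 5/9 * a5 - 1/9 * a6 + 8/9 * a7 + 5/9 *
        a8) ^ 2 + 2 * (0 - 1/9 * a0 - 1/9 * a1 - 4/9 * a2 + 2/9 * a3 + 2/9 * a4 - 1/9 * a5 +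
        2/9 * a6 + 2/9 * a7 - 1/9 * a8) ^ 2 + (0 - 1/9 * a0 + 8/9 * a1 + 5/9 * a2 + 5/9 * a3 +
        5/9 * a4 + 2/9 * a5 + 8/9 * a6 - 1/9 * a7 + 5/9 * a8) ^ 2 + 2 * (2/9 * a0 + 2/9 * a1 -
        1/9 * a2 - 1/9 * a3 - 1/9 * a4 - 4/9 * a5 + 2/9 * a6 + 2/9 * a7 - 1/9 * a8) ^ 2 + (8/9
        * a0 - 1/9 * a1 + 5/9 * a2 + 8/9 * a3 - 1/9 * a4 + 5/9 * a5 + 5/9 * a6 + 5/9 * a7 + 2/9
        * a8) ^ 2 + 2 * (2/9 * a0 + 2/9 * a1 - 1/9 * a2 + 2/9 * a3 + 2/9 * a4 - 1/9 * a5 - 1/9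
        * a6 - 1/9 * a7 - 4/9 * a8) ^ 2) =
      19 / 5 * (1/4 * a0 - 3/8 * a1 - 3/8 * a2 - 1/4 * a3 - 1/8 * a4 - 1/8 * a5 - 1/8 * a6 -
        3/8 * a7 - 1/8 * a9 - 3/8 * a10) ^ 2 + 19 / 5 * (0 - 3/8 * a0 + 1/4 * a1 - 3/8 * a2 -
        1/8 * a3 - 3/8 * a4 - 1/4 * a6 - 1/8 * a7 - 1/8 * a8 - 1/8 * a9 - 3/8 * a11) ^ 2 + 19 /
        5 * (0 - 3/8 * a0 - 3/8 * a1 + 1/4 * a2 - 1/8 * a3 - 3/8 * a5 - 1/8 * a6 - 3/8 * a8 -
        1/4 * a9 - 1/8 * a10 - 1/8 * a11) ^ 2 + 19 / 5 * (0 - 1/4 * a0 - 1/8 * a1 - 1/8 * a2 +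
        1/4 * a3 - 3/8 * a4 - 3/8 * a5 - 3/8 * a6 - 1/8 * a7 - 3/8 * a9 - 1/8 * a10) ^ 2 + 19 /
        5 * (0 - 1/8 * a0 - 3/8 * a1 - 3/8 * a3 + 1/4 * a4 - 3/8 * a5 - 1/8 * a6 - 1/4 * a7 -
        1/8 * a8 - 1/8 * a10 - 3/8 * a11) ^ 2 + 19 / 5 * (0 - 1/8 * a0 - 3/8 * a2 - 3/8 * a3 -
        3/8 * a4 + 1/4 * a5 - 1/8 * a7 - 3/8 * a8 - 1/8 * a9 - 1/4 * a10 - 1/8 * a11) ^ 2 + 19
        / 5 * (0 - 1/8 * a0 - 1/4 * a1 - 1/8 * a2 - 3/8 * a3 - 1/8 * a4 + 1/4 * a6 - 3/8 * a7 -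
        3/8 * a8 - 3/8 * a9 - 1/8 * a11) ^ 2 + 19 / 5 * (0 - 3/8 * a0 - 1/8 * a1 - 1/8 * a3 -
        1/4 * a4 - 1/8 * a5 - 3/8 * a6 + 1/4 * a7 - 3/8 * a8 - 3/8 * a10 - 1/8 * a11) ^ 2 + 19
        / 5 * (0 - 1/8 * a1 - 3/8 * a2 - 1/8 * a4 - 3/8 * a5 - 3/8 * a6 - 3/8 * a7 + 1/4 * a8 -
        1/8 * a9 - 1/8 * a10 - 1/4 * a11) ^ 2 + 19 / 5 * (0 - 1/8 * a0 - 1/8 * a1 - 1/4 * a2 -
        3/8 * a3 - 1/8 * a5 - 3/8 * a6 - 1/8 * a8 + 1/4 * a9 - 3/8 * a10 - 3/8 * a11) ^ 2 + 19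
        / 5 * (0 - 3/8 * a0 - 1/8 * a2 - 1/8 * a3 - 1/8 * a4 - 1/4 * a5 - 3/8 * a7 - 1/8 * a8 -
        3/8 * a9 + 1/4 * a10 - 3/8 * a11) ^ 2 + 19 / 5 * (0 - 3/8 * a1 - 1/8 * a2 - 3/8 * a4 -
        1/8 * a5 - 1/8 * a6 - 1/8 * a7 - 1/4 * a8 - 3/8 * a9 - 3/8 * a10 + 1/4 * a11) ^ 2 + 11
        / 120 * (1/3 * a0 + 1/3 * a1 + 1/3 * a2 + a3 + a6 + a9) ^ 2 + 11 / 120 * (a0 + 1/3 * a3
        + 1/3 * a4 + 1/3 * a5 + a7 + a10) ^ 2 + 11 / 120 * (a1 + a4 + 1/3 * a6 + 1/3 * a7 + 1/3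
        * a8 + a11) ^ 2 + 11 / 120 * (a2 + a5 + a8 + 1/3 * a9 + 1/3 * a10 + 1/3 * a11) ^ 2 + 56
        / 135 * (a0 + a1 + a2) ^ 2 + 56 / 135 * (a3 + a4 + a5) ^ 2 + 56 / 135 * (a6 + a7 + a8)
        ^ 2 + 56 / 135 * (a9 + a10 + a11) ^ 2 := by
    linear_combination (0 - 211/90 * a0 - 211/90 * a1 - 211/90 * a2 - 211/90 * a3 - 211/90 * a4 - 211/90 * a5 -
          211/90 * a6 - 211/90 * a7 - 211/90 * a8 - 211/90 * a9 - 211/90 * a10 - 211/90 * a11) * ht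
  have pos : 0 ≤
      19 / 5 * (1/4 * a0 - 3/8 * a1 - 3/8 * a2 - 1/4 * a3 - 1/8 * a4 - 1/8 * a5 - 1/8 * a6 -
        3/8 * a7 - 1/8 * a9 - 3/8 * a10) ^ 2 + 19 / 5 * (0 - 3/8 * a0 + 1/4 * a1 - 3/8 * a2 -
        1/8 * a3 - 3/8 * a4 - 1/4 * a6 - 1/8 * a7 - 1/8 * a8 - 1/8 * a9 - 3/8 * a11) ^ 2 + 19 /
        5 * (0 - 3/8 * a0 - 3/8 * a1 + 1/4 * a2 - 1/8 * a3 - 3/8 * a5 - 1/8 * a6 - 3/8 * a8 -
        1/4 * a9 - 1/8 * a10 - 1/8 * a11) ^ 2 + 19 / 5 * (0 - 1/4 * a0 - 1/8 * a1 - 1/8 * a2 +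
        1/4 * a3 - 3/8 * a4 - 3/8 * a5 - 3/8 * a6 - 1/8 * a7 - 3/8 * a9 - 1/8 * a10) ^ 2 + 19 /
        5 * (0 - 1/8 * a0 - 3/8 * a1 - 3/8 * a3 + 1/4 * a4 - 3/8 * a5 - 1/8 * a6 - 1/4 * a7 -
        1/8 * a8 - 1/8 * a10 - 3/8 * a11) ^ 2 + 19 / 5 * (0 - 1/8 * a0 - 3/8 * a2 - 3/8 * a3 -
        3/8 * a4 + 1/4 * a5 - 1/8 * a7 - 3/8 * a8 - 1/8 * a9 - 1/4 * a10 - 1/8 * a11) ^ 2 + 19
        / 5 * (0 - 1/8 * a0 - 1/4 * a1 - 1/8 * a2 - 3/8 * a3 - 1/8 * a4 + 1/4 * a6 - 3/8 * a7 -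
        3/8 * a8 - 3/8 * a9 - 1/8 * a11) ^ 2 + 19 / 5 * (0 - 3/8 * a0 - 1/8 * a1 - 1/8 * a3 -
        1/4 * a4 - 1/8 * a5 - 3/8 * a6 + 1/4 * a7 - 3/8 * a8 - 3/8 * a10 - 1/8 * a11) ^ 2 + 19
        / 5 * (0 - 1/8 * a1 - 3/8 * a2 - 1/8 * a4 - 3/8 * a5 - 3/8 * a6 - 3/8 * a7 + 1/4 * a8 -
        1/8 * a9 - 1/8 * a10 - 1/4 * a11) ^ 2 + 19 / 5 * (0 - 1/8 * a0 - 1/8 * a1 - 1/4 * a2 -
        3/8 * a3 - 1/8 * a5 - 3/8 * a6 - 1/8 * a8 + 1/4 * a9 - 3/8 * a10 - 3/8 * a11) ^ 2 + 19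
        / 5 * (0 - 3/8 * a0 - 1/8 * a2 - 1/8 * a3 - 1/8 * a4 - 1/4 * a5 - 3/8 * a7 - 1/8 * a8 -
        3/8 * a9 + 1/4 * a10 - 3/8 * a11) ^ 2 + 19 / 5 * (0 - 3/8 * a1 - 1/8 * a2 - 3/8 * a4 -
        1/8 * a5 - 1/8 * a6 - 1/8 * a7 - 1/4 * a8 - 3/8 * a9 - 3/8 * a10 + 1/4 * a11) ^ 2 + 11
        / 120 * (1/3 * a0 + 1/3 * a1 + 1/3 * a2 + a3 + a6 + a9) ^ 2 + 11 / 120 * (a0 + 1/3 * a3
        + 1/3 * a4 + 1/3 * a5 + a7 + a10) ^ 2 + 11 / 120 * (a1 + a4 + 1/3 * a6 + 1/3 * a7 + 1/3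
        * a8 + a11) ^ 2 + 11 / 120 * (a2 + a5 + a8 + 1/3 * a9 + 1/3 * a10 + 1/3 * a11) ^ 2 + 56
        / 135 * (a0 + a1 + a2) ^ 2 + 56 / 135 * (a3 + a4 + a5) ^ 2 + 56 / 135 * (a6 + a7 + a8)
        ^ 2 + 56 / 135 * (a9 + a10 + a11) ^ 2 := by
    positivity
  linarith

theorem pos2_r3 (a0 a1 a2 a3 a4 a5 a6 a7 a8 a9 a10 a11 : ℝ)
    (ht : a0 + a1 + a2 + a3 + a4 + a5 + a6 + a7 + a8 + a9 + a10 + a11 = 0) :
    a0 * (2/9 * a3 + 5/9 * a4 + 5/9 * a5 + 5/9 * a6 - 1/9 * a7 + 8/9 * a8 + 5/9 * a9 - 1/9 *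
      a10 + 8/9 * a11) + a1 * (5/9 * a3 - 1/9 * a4 + 8/9 * a5 + 2/9 * a6 + 5/9 * a7 + 5/9 * a8
      + 5/9 * a9 + 8/9 * a10 - 1/9 * a11) + a2 * (5/9 * a3 + 8/9 * a4 - 1/9 * a5 + 5/9 * a6 +
      8/9 * a7 - 1/9 * a8 + 2/9 * a9 + 5/9 * a10 + 5/9 * a11) + a3 * (2/9 * a0 + 5/9 * a1 + 5/9
      * a2 - 1/9 * a6 + 5/9 * a7 + 8/9 * a8 - 1/9 * a9 + 5/9 * a10 + 8/9 * a11) + a4 * (5/9 *
      a0 - 1/9 * a1 + 8/9 * a2 + 5/9 * a6 + 2/9 * a7 + 5/9 * a8 + 8/9 * a9 + 5/9 * a10 - 1/9 *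
      a11) + a5 * (5/9 * a0 + 8/9 * a1 - 1/9 * a2 + 8/9 * a6 + 5/9 * a7 - 1/9 * a8 + 5/9 * a9 +
      2/9 * a10 + 5/9 * a11) + a6 * (5/9 * a0 + 2/9 * a1 + 5/9 * a2 - 1/9 * a3 + 5/9 * a4 + 8/9
      * a5 - 1/9 * a9 + 8/9 * a10 + 5/9 * a11) + a7 * (0 - 1/9 * a0 + 5/9 * a1 + 8/9 * a2 + 5/9
      * a3 + 2/9 * a4 + 5/9 * a5 + 8/9 * a9 - 1/9 * a10 + 5/9 * a11) + a8 * (8/9 * a0 + 5/9 *
      a1 - 1/9 * a2 + 8/9 * a3 + 5/9 * a4 - 1/9 * a5 + 5/9 * a9 + 5/9 * a10 + 2/9 * a11) + a9 *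
      (5/9 * a0 + 5/9 * a1 + 2/9 * a2 - 1/9 * a3 + 8/9 * a4 + 5/9 * a5 - 1/9 * a6 + 8/9 * a7 +
      5/9 * a8) + a10 * (0 - 1/9 * a0 + 8/9 * a1 + 5/9 * a2 + 5/9 * a3 + 5/9 * a4 + 2/9 * a5 +
      8/9 * a6 - 1/9 * a7 + 5/9 * a8) + a11 * (8/9 * a0 - 1/9 * a1 + 5/9 * a2 + 8/9 * a3 - 1/9
      * a4 + 5/9 * a5 + 5/9 * a6 + 5/9 * a7 + 2/9 * a8) ≤
    a0 ^ 2 + a1 ^ 2 + a2 ^ 2 + a3 ^ 2 + a4 ^ 2 + a5 ^ 2 + a6 ^ 2 + a7 ^ 2 + a8 ^ 2 + a9 ^ 2 +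
        a10 ^ 2 + a11 ^ 2 := by
  have key : (a0 ^ 2 + a1 ^ 2 + a2 ^ 2 + a3 ^ 2 + a4 ^ 2 + a5 ^ 2 + a6 ^ 2 + a7 ^ 2 + a8 ^ 2 + a9 ^ 2 +
        a10 ^ 2 + a11 ^ 2) -
      (a0 * (2/9 * a3 + 5/9 * a4 + 5/9 * a5 + 5/9 * a6 - 1/9 * a7 + 8/9 * a8 + 5/9 * a9 - 1/9 *
        a10 + 8/9 * a11) + a1 * (5/9 * a3 - 1/9 * a4 + 8/9 * a5 + 2/9 * a6 + 5/9 * a7 + 5/9 *
        a8 + 5/9 * a9 + 8/9 * a10 - 1/9 * a11) + a2 * (5/9 * a3 + 8/9 * a4 - 1/9 * a5 + 5/9 *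
        a6 + 8/9 * a7 - 1/9 * a8 + 2/9 * a9 + 5/9 * a10 + 5/9 * a11) + a3 * (2/9 * a0 + 5/9 *
        a1 + 5/9 * a2 - 1/9 * a6 + 5/9 * a7 + 8/9 * a8 - 1/9 * a9 + 5/9 * a10 + 8/9 * a11) + a4
        * (5/9 * a0 - 1/9 * a1 + 8/9 * a2 + 5/9 * a6 + 2/9 * a7 + 5/9 * a8 + 8/9 * a9 + 5/9 *
        a10 - 1/9 * a11) + a5 * (5/9 * a0 + 8/9 * a1 - 1/9 * a2 + 8/9 * a6 + 5/9 * a7 - 1/9 *
        a8 + 5/9 * a9 + 2/9 * a10 + 5/9 * a11) + a6 * (5/9 * a0 + 2/9 * a1 + 5/9 * a2 - 1/9 *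
        a3 + 5/9 * a4 + 8/9 * a5 - 1/9 * a9 + 8/9 * a10 + 5/9 * a11) + a7 * (0 - 1/9 * a0 + 5/9
        * a1 + 8/9 * a2 + 5/9 * a3 + 2/9 * a4 + 5/9 * a5 + 8/9 * a9 - 1/9 * a10 + 5/9 * a11) +
        a8 * (8/9 * a0 + 5/9 * a1 - 1/9 * a2 + 8/9 * a3 + 5/9 * a4 - 1/9 * a5 + 5/9 * a9 + 5/9
        * a10 + 2/9 * a11) + a9 * (5/9 * a0 + 5/9 * a1 + 2/9 * a2 - 1/9 * a3 + 8/9 * a4 + 5/9 *
        a5 - 1/9 * a6 + 8/9 * a7 + 5/9 * a8) + a10 * (0 - 1/9 * a0 + 8/9 * a1 + 5/9 * a2 + 5/9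
        * a3 + 5/9 * a4 + 2/9 * a5 + 8/9 * a6 - 1/9 * a7 + 5/9 * a8) + a11 * (8/9 * a0 - 1/9 *
        a1 + 5/9 * a2 + 8/9 * a3 - 1/9 * a4 + 5/9 * a5 + 5/9 * a6 + 5/9 * a7 + 2/9 * a8)) =
      (1/3 * a0 + 1/3 * a1 + 1/3 * a2 + a3 + a6 + a9) ^ 2 + (a0 + 1/3 * a3 + 1/3 * a4 + 1/3 *
        a5 + a7 + a10) ^ 2 + (a1 + a4 + 1/3 * a6 + 1/3 * a7 + 1/3 * a8 + a11) ^ 2 + (a2 + a5 +
        a8 + 1/3 * a9 + 1/3 * a10 + 1/3 * a11) ^ 2 + 7 / 9 * (a0 + a1 + a2) ^ 2 + 7 / 9 * (a3 +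
        a4 + a5) ^ 2 + 7 / 9 * (a6 + a7 + a8) ^ 2 + 7 / 9 * (a9 + a10 + a11) ^ 2 := by
    linear_combination (0 - 8/9 * a0 - 8/9 * a1 - 8/9 * a2 - 8/9 * a3 - 8/9 * a4 - 8/9 * a5 - 8/9 * a6 - 8/9 *
          a7 - 8/9 * a8 - 8/9 * a9 - 8/9 * a10 - 8/9 * a11) * ht
  have pos : 0 ≤
      (1/3 * a0 + 1/3 * a1 + 1/3 * a2 + a3 + a6 + a9) ^ 2 + (a0 + 1/3 * a3 + 1/3 * a4 + 1/3 *
        a5 + a7 + a10) ^ 2 + (a1 + a4 + 1/3 * a6 + 1/3 * a7 + 1/3 * a8 + a11) ^ 2 + (a2 + a5 +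
        a8 + 1/3 * a9 + 1/3 * a10 + 1/3 * a11) ^ 2 + 7 / 9 * (a0 + a1 + a2) ^ 2 + 7 / 9 * (a3 +
        a4 + a5) ^ 2 + 7 / 9 * (a6 + a7 + a8) ^ 2 + 7 / 9 * (a9 + a10 + a11) ^ 2 := by
    positivity
  linarith

theorem pos2_rowA0 (z : L1 → ℝ) : ∑ j, MA (0, 0) j * z j =
    2/9 * z (1, 0) + 5/9 * z (1, 1) + 5/9 * z (1, 2) + 5/9 * z (2, 0) - 1/9 * z (2, 1) + 8/9 *
      z (2, 2) + 5/9 * z (3, 0) - 1/9 * z (3, 1) + 8/9 * z (3, 2) := by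
  rw [Fintype.sum_prod_type]
  simp only [Fin.sum_univ_four, Fin.sum_univ_three, MA]
  rw [show AZ (0, 0) (0, 0) = 0 from rfl, show AZ (0, 0) (0, 1) = 0 from rfl, show AZ (0, 0) (0,
      2) = 0 from rfl, show AZ (0, 0) (1, 0) = 2 from rfl, show AZ (0, 0) (1, 1) = 5 from rfl,
      show AZ (0, 0) (1, 2) = 5 from rfl, show AZ (0, 0) (2, 0) = 5 from rfl, show AZ (0, 0)
      (2, 1) = -1 from rfl, show AZ (0, 0) (2, 2) = 8 from rfl, show AZ (0, 0) (3, 0) = 5 from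
      rfl, show AZ (0, 0) (3, 1) = -1 from rfl, show AZ (0, 0) (3, 2) = 8 from rfl]
  push_cast
  ring

theorem pos2_rowA1 (z : L1 → ℝ) : ∑ j, MA (0, 1) j * z j =
    5/9 * z (1, 0) - 1/9 * z (1, 1) + 8/9 * z (1, 2) + 2/9 * z (2, 0) + 5/9 * z (2, 1) + 5/9 *
      z (2, 2) + 5/9 * z (3, 0) + 8/9 * z (3, 1) - 1/9 * z (3, 2) := by
  rw [Fintype.sum_prod_type]
  simp only [Fin.sum_univ_four, Fin.sum_univ_three, MA]
  rw [show AZ (0, 1) (0, 0) = 0 from rfl, show AZ (0, 1) (0, 1) = 0 from rfl, show AZ (0, 1) (0,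
      2) = 0 from rfl, show AZ (0, 1) (1, 0) = 5 from rfl, show AZ (0, 1) (1, 1) = -1 from rfl,
      show AZ (0, 1) (1, 2) = 8 from rfl, show AZ (0, 1) (2, 0) = 2 from rfl, show AZ (0, 1)
      (2, 1) = 5 from rfl, show AZ (0, 1) (2, 2) = 5 from rfl, show AZ (0, 1) (3, 0) = 5 from
      rfl, show AZ (0, 1) (3, 1) = 8 from rfl, show AZ (0, 1) (3, 2) = -1 from rfl]
  push_cast
  ring

theorem pos2_rowA2 (z : L1 → ℝ) : ∑ j, MA (0, 2) j * z j =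
    5/9 * z (1, 0) + 8/9 * z (1, 1) - 1/9 * z (1, 2) + 5/9 * z (2, 0) + 8/9 * z (2, 1) - 1/9 *
      z (2, 2) + 2/9 * z (3, 0) + 5/9 * z (3, 1) + 5/9 * z (3, 2) := by
  rw [Fintype.sum_prod_type]
  simp only [Fin.sum_univ_four, Fin.sum_univ_three, MA]
  rw [show AZ (0, 2) (0, 0) = 0 from rfl, show AZ (0, 2) (0, 1) = 0 from rfl, show AZ (0, 2) (0,
      2) = 0 from rfl, show AZ (0, 2) (1, 0) = 5 from rfl, show AZ (0, 2) (1, 1) = 8 from rfl,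
      show AZ (0, 2) (1, 2) = -1 from rfl, show AZ (0, 2) (2, 0) = 5 from rfl, show AZ (0, 2)
      (2, 1) = 8 from rfl, show AZ (0, 2) (2, 2) = -1 from rfl, show AZ (0, 2) (3, 0) = 2 from
      rfl, show AZ (0, 2) (3, 1) = 5 from rfl, show AZ (0, 2) (3, 2) = 5 from rfl]
  push_cast
  ring

theorem pos2_rowA3 (z : L1 → ℝ) : ∑ j, MA (1, 0) j * z j =
    2/9 * z (0, 0) + 5/9 * z (0, 1) + 5/9 * z (0, 2) - 1/9 * z (2, 0) + 5/9 * z (2, 1) + 8/9 *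
      z (2, 2) - 1/9 * z (3, 0) + 5/9 * z (3, 1) + 8/9 * z (3, 2) := by
  rw [Fintype.sum_prod_type]
  simp only [Fin.sum_univ_four, Fin.sum_univ_three, MA]
  rw [show AZ (1, 0) (0, 0) = 2 from rfl, show AZ (1, 0) (0, 1) = 5 from rfl, show AZ (1, 0) (0,
      2) = 5 from rfl, show AZ (1, 0) (1, 0) = 0 from rfl, show AZ (1, 0) (1, 1) = 0 from rfl,
      show AZ (1, 0) (1, 2) = 0 from rfl, show AZ (1, 0) (2, 0) = -1 from rfl, show AZ (1, 0)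
      (2, 1) = 5 from rfl, show AZ (1, 0) (2, 2) = 8 from rfl, show AZ (1, 0) (3, 0) = -1 from
      rfl, show AZ (1, 0) (3, 1) = 5 from rfl, show AZ (1, 0) (3, 2) = 8 from rfl]
  push_cast
  ring

theorem pos2_rowA4 (z : L1 → ℝ) : ∑ j, MA (1, 1) j * z j =
    5/9 * z (0, 0) - 1/9 * z (0, 1) + 8/9 * z (0, 2) + 5/9 * z (2, 0) + 2/9 * z (2, 1) + 5/9 *
      z (2, 2) + 8/9 * z (3, 0) + 5/9 * z (3, 1) - 1/9 * z (3, 2) := by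
  rw [Fintype.sum_prod_type]
  simp only [Fin.sum_univ_four, Fin.sum_univ_three, MA]
  rw [show AZ (1, 1) (0, 0) = 5 from rfl, show AZ (1, 1) (0, 1) = -1 from rfl, show AZ (1, 1) (0,
      2) = 8 from rfl, show AZ (1, 1) (1, 0) = 0 from rfl, show AZ (1, 1) (1, 1) = 0 from rfl,
      show AZ (1, 1) (1, 2) = 0 from rfl, show AZ (1, 1) (2, 0) = 5 from rfl, show AZ (1, 1)
      (2, 1) = 2 from rfl, show AZ (1, 1) (2, 2) = 5 from rfl, show AZ (1, 1) (3, 0) = 8 from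
      rfl, show AZ (1, 1) (3, 1) = 5 from rfl, show AZ (1, 1) (3, 2) = -1 from rfl]
  push_cast
  ring

theorem pos2_rowA5 (z : L1 → ℝ) : ∑ j, MA (1, 2) j * z j =
    5/9 * z (0, 0) + 8/9 * z (0, 1) - 1/9 * z (0, 2) + 8/9 * z (2, 0) + 5/9 * z (2, 1) - 1/9 *
      z (2, 2) + 5/9 * z (3, 0) + 2/9 * z (3, 1) + 5/9 * z (3, 2) := by
  rw [Fintype.sum_prod_type]
  simp only [Fin.sum_univ_four, Fin.sum_univ_three, MA]
  rw [show AZ (1, 2) (0, 0) = 5 from rfl, show AZ (1, 2) (0, 1) = 8 from rfl, show AZ (1, 2) (0,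
      2) = -1 from rfl, show AZ (1, 2) (1, 0) = 0 from rfl, show AZ (1, 2) (1, 1) = 0 from rfl,
      show AZ (1, 2) (1, 2) = 0 from rfl, show AZ (1, 2) (2, 0) = 8 from rfl, show AZ (1, 2)
      (2, 1) = 5 from rfl, show AZ (1, 2) (2, 2) = -1 from rfl, show AZ (1, 2) (3, 0) = 5 from
      rfl, show AZ (1, 2) (3, 1) = 2 from rfl, show AZ (1, 2) (3, 2) = 5 from rfl]
  push_cast
  ring

theorem pos2_rowA6 (z : L1 → ℝ) : ∑ j, MA (2, 0) j * z j =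
    5/9 * z (0, 0) + 2/9 * z (0, 1) + 5/9 * z (0, 2) - 1/9 * z (1, 0) + 5/9 * z (1, 1) + 8/9 *
      z (1, 2) - 1/9 * z (3, 0) + 8/9 * z (3, 1) + 5/9 * z (3, 2) := by
  rw [Fintype.sum_prod_type]
  simp only [Fin.sum_univ_four, Fin.sum_univ_three, MA]
  rw [show AZ (2, 0) (0, 0) = 5 from rfl, show AZ (2, 0) (0, 1) = 2 from rfl, show AZ (2, 0) (0,
      2) = 5 from rfl, show AZ (2, 0) (1, 0) = -1 from rfl, show AZ (2, 0) (1, 1) = 5 from rfl,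
      show AZ (2, 0) (1, 2) = 8 from rfl, show AZ (2, 0) (2, 0) = 0 from rfl, show AZ (2, 0)
      (2, 1) = 0 from rfl, show AZ (2, 0) (2, 2) = 0 from rfl, show AZ (2, 0) (3, 0) = -1 from
      rfl, show AZ (2, 0) (3, 1) = 8 from rfl, show AZ (2, 0) (3, 2) = 5 from rfl]
  push_cast
  ring

theorem pos2_rowA7 (z : L1 → ℝ) : ∑ j, MA (2, 1) j * z j =
    0 - 1/9 * z (0, 0) + 5/9 * z (0, 1) + 8/9 * z (0, 2) + 5/9 * z (1, 0) + 2/9 * z (1, 1) +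
      5/9 * z (1, 2) + 8/9 * z (3, 0) - 1/9 * z (3, 1) + 5/9 * z (3, 2) := by
  rw [Fintype.sum_prod_type]
  simp only [Fin.sum_univ_four, Fin.sum_univ_three, MA]
  rw [show AZ (2, 1) (0, 0) = -1 from rfl, show AZ (2, 1) (0, 1) = 5 from rfl, show AZ (2, 1) (0,
      2) = 8 from rfl, show AZ (2, 1) (1, 0) = 5 from rfl, show AZ (2, 1) (1, 1) = 2 from rfl,
      show AZ (2, 1) (1, 2) = 5 from rfl, show AZ (2, 1) (2, 0) = 0 from rfl, show AZ (2, 1)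
      (2, 1) = 0 from rfl, show AZ (2, 1) (2, 2) = 0 from rfl, show AZ (2, 1) (3, 0) = 8 from
      rfl, show AZ (2, 1) (3, 1) = -1 from rfl, show AZ (2, 1) (3, 2) = 5 from rfl]
  push_cast
  ring

theorem pos2_rowA8 (z : L1 → ℝ) : ∑ j, MA (2, 2) j * z j =
    8/9 * z (0, 0) + 5/9 * z (0, 1) - 1/9 * z (0, 2) + 8/9 * z (1, 0) + 5/9 * z (1, 1) - 1/9 *
      z (1, 2) + 5/9 * z (3, 0) + 5/9 * z (3, 1) + 2/9 * z (3, 2) := by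
  rw [Fintype.sum_prod_type]
  simp only [Fin.sum_univ_four, Fin.sum_univ_three, MA]
  rw [show AZ (2, 2) (0, 0) = 8 from rfl, show AZ (2, 2) (0, 1) = 5 from rfl, show AZ (2, 2) (0,
      2) = -1 from rfl, show AZ (2, 2) (1, 0) = 8 from rfl, show AZ (2, 2) (1, 1) = 5 from rfl,
      show AZ (2, 2) (1, 2) = -1 from rfl, show AZ (2, 2) (2, 0) = 0 from rfl, show AZ (2, 2)
      (2, 1) = 0 from rfl, show AZ (2, 2) (2, 2) = 0 from rfl, show AZ (2, 2) (3, 0) = 5 from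
      rfl, show AZ (2, 2) (3, 1) = 5 from rfl, show AZ (2, 2) (3, 2) = 2 from rfl]
  push_cast
  ring

theorem pos2_rowA9 (z : L1 → ℝ) : ∑ j, MA (3, 0) j * z j =
    5/9 * z (0, 0) + 5/9 * z (0, 1) + 2/9 * z (0, 2) - 1/9 * z (1, 0) + 8/9 * z (1, 1) + 5/9 *
      z (1, 2) - 1/9 * z (2, 0) + 8/9 * z (2, 1) + 5/9 * z (2, 2) := by
  rw [Fintype.sum_prod_type]
  simp only [Fin.sum_univ_four, Fin.sum_univ_three, MA]
  rw [show AZ (3, 0) (0, 0) = 5 from rfl, show AZ (3, 0) (0, 1) = 5 from rfl, show AZ (3, 0) (0,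
      2) = 2 from rfl, show AZ (3, 0) (1, 0) = -1 from rfl, show AZ (3, 0) (1, 1) = 8 from rfl,
      show AZ (3, 0) (1, 2) = 5 from rfl, show AZ (3, 0) (2, 0) = -1 from rfl, show AZ (3, 0)
      (2, 1) = 8 from rfl, show AZ (3, 0) (2, 2) = 5 from rfl, show AZ (3, 0) (3, 0) = 0 from
      rfl, show AZ (3, 0) (3, 1) = 0 from rfl, show AZ (3, 0) (3, 2) = 0 from rfl]
  push_cast
  ring

theorem pos2_rowA10 (z : L1 → ℝ) : ∑ j, MA (3, 1) j * z j =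
    0 - 1/9 * z (0, 0) + 8/9 * z (0, 1) + 5/9 * z (0, 2) + 5/9 * z (1, 0) + 5/9 * z (1, 1) +
      2/9 * z (1, 2) + 8/9 * z (2, 0) - 1/9 * z (2, 1) + 5/9 * z (2, 2) := by
  rw [Fintype.sum_prod_type]
  simp only [Fin.sum_univ_four, Fin.sum_univ_three, MA]
  rw [show AZ (3, 1) (0, 0) = -1 from rfl, show AZ (3, 1) (0, 1) = 8 from rfl, show AZ (3, 1) (0,
      2) = 5 from rfl, show AZ (3, 1) (1, 0) = 5 from rfl, show AZ (3, 1) (1, 1) = 5 from rfl,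
      show AZ (3, 1) (1, 2) = 2 from rfl, show AZ (3, 1) (2, 0) = 8 from rfl, show AZ (3, 1)
      (2, 1) = -1 from rfl, show AZ (3, 1) (2, 2) = 5 from rfl, show AZ (3, 1) (3, 0) = 0 from
      rfl, show AZ (3, 1) (3, 1) = 0 from rfl, show AZ (3, 1) (3, 2) = 0 from rfl]
  push_cast
  ring

theorem pos2_rowA11 (z : L1 → ℝ) : ∑ j, MA (3, 2) j * z j =
    8/9 * z (0, 0) - 1/9 * z (0, 1) + 5/9 * z (0, 2) + 8/9 * z (1, 0) - 1/9 * z (1, 1) + 5/9 *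
      z (1, 2) + 5/9 * z (2, 0) + 5/9 * z (2, 1) + 2/9 * z (2, 2) := by
  rw [Fintype.sum_prod_type]
  simp only [Fin.sum_univ_four, Fin.sum_univ_three, MA]
  rw [show AZ (3, 2) (0, 0) = 8 from rfl, show AZ (3, 2) (0, 1) = -1 from rfl, show AZ (3, 2) (0,
      2) = 5 from rfl, show AZ (3, 2) (1, 0) = 8 from rfl, show AZ (3, 2) (1, 1) = -1 from rfl,
      show AZ (3, 2) (1, 2) = 5 from rfl, show AZ (3, 2) (2, 0) = 5 from rfl, show AZ (3, 2)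
      (2, 1) = 5 from rfl, show AZ (3, 2) (2, 2) = 2 from rfl, show AZ (3, 2) (3, 0) = 0 from
      rfl, show AZ (3, 2) (3, 1) = 0 from rfl, show AZ (3, 2) (3, 2) = 0 from rfl]
  push_cast
  ring

theorem pos2_rowB0 (z : L1 → ℝ) : ∑ j, MB (0, 0) j * z j =
    0 - 4/9 * z (1, 0) - 1/9 * z (1, 1) - 1/9 * z (1, 2) - 1/9 * z (2, 0) + 2/9 * z (2, 1) +
      2/9 * z (2, 2) - 1/9 * z (3, 0) + 2/9 * z (3, 1) + 2/9 * z (3, 2) := by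
  rw [Fintype.sum_prod_type]
  simp only [Fin.sum_univ_four, Fin.sum_univ_three, MB]
  rw [show BZ (0, 0) (0, 0) = 0 from rfl, show BZ (0, 0) (0, 1) = 0 from rfl, show BZ (0, 0) (0,
      2) = 0 from rfl, show BZ (0, 0) (1, 0) = -4 from rfl, show BZ (0, 0) (1, 1) = -1 from
      rfl, show BZ (0, 0) (1, 2) = -1 from rfl, show BZ (0, 0) (2, 0) = -1 from rfl, show BZ
      (0, 0) (2, 1) = 2 from rfl, show BZ (0, 0) (2, 2) = 2 from rfl, show BZ (0, 0) (3, 0) =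
      -1 from rfl, show BZ (0, 0) (3, 1) = 2 from rfl, show BZ (0, 0) (3, 2) = 2 from rfl]
  push_cast
  ring

theorem pos2_rowB1 (z : L1 → ℝ) : ∑ j, MB (0, 1) j * z j =
    0 - 1/9 * z (1, 0) + 2/9 * z (1, 1) + 2/9 * z (1, 2) - 4/9 * z (2, 0) - 1/9 * z (2, 1) -
      1/9 * z (2, 2) - 1/9 * z (3, 0) + 2/9 * z (3, 1) + 2/9 * z (3, 2) := by
  rw [Fintype.sum_prod_type]
  simp only [Fin.sum_univ_four, Fin.sum_univ_three, MB]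
  rw [show BZ (0, 1) (0, 0) = 0 from rfl, show BZ (0, 1) (0, 1) = 0 from rfl, show BZ (0, 1) (0,
      2) = 0 from rfl, show BZ (0, 1) (1, 0) = -1 from rfl, show BZ (0, 1) (1, 1) = 2 from rfl,
      show BZ (0, 1) (1, 2) = 2 from rfl, show BZ (0, 1) (2, 0) = -4 from rfl, show BZ (0, 1)
      (2, 1) = -1 from rfl, show BZ (0, 1) (2, 2) = -1 from rfl, show BZ (0, 1) (3, 0) = -1
      from rfl, show BZ (0, 1) (3, 1) = 2 from rfl, show BZ (0, 1) (3, 2) = 2 from rfl]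
  push_cast
  ring

theorem pos2_rowB2 (z : L1 → ℝ) : ∑ j, MB (0, 2) j * z j =
    0 - 1/9 * z (1, 0) + 2/9 * z (1, 1) + 2/9 * z (1, 2) - 1/9 * z (2, 0) + 2/9 * z (2, 1) +
      2/9 * z (2, 2) - 4/9 * z (3, 0) - 1/9 * z (3, 1) - 1/9 * z (3, 2) := by
  rw [Fintype.sum_prod_type]
  simp only [Fin.sum_univ_four, Fin.sum_univ_three, MB]
  rw [show BZ (0, 2) (0, 0) = 0 from rfl, show BZ (0, 2) (0, 1) = 0 from rfl, show BZ (0, 2) (0,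
      2) = 0 from rfl, show BZ (0, 2) (1, 0) = -1 from rfl, show BZ (0, 2) (1, 1) = 2 from rfl,
      show BZ (0, 2) (1, 2) = 2 from rfl, show BZ (0, 2) (2, 0) = -1 from rfl, show BZ (0, 2)
      (2, 1) = 2 from rfl, show BZ (0, 2) (2, 2) = 2 from rfl, show BZ (0, 2) (3, 0) = -4 from
      rfl, show BZ (0, 2) (3, 1) = -1 from rfl, show BZ (0, 2) (3, 2) = -1 from rfl]
  push_cast
  ring

theorem pos2_rowB3 (z : L1 → ℝ) : ∑ j, MB (1, 0) j * z j =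
    0 - 4/9 * z (0, 0) - 1/9 * z (0, 1) - 1/9 * z (0, 2) + 2/9 * z (2, 0) - 1/9 * z (2, 1) +
      2/9 * z (2, 2) + 2/9 * z (3, 0) - 1/9 * z (3, 1) + 2/9 * z (3, 2) := by
  rw [Fintype.sum_prod_type]
  simp only [Fin.sum_univ_four, Fin.sum_univ_three, MB]
  rw [show BZ (1, 0) (0, 0) = -4 from rfl, show BZ (1, 0) (0, 1) = -1 from rfl, show BZ (1, 0)
      (0, 2) = -1 from rfl, show BZ (1, 0) (1, 0) = 0 from rfl, show BZ (1, 0) (1, 1) = 0 from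
      rfl, show BZ (1, 0) (1, 2) = 0 from rfl, show BZ (1, 0) (2, 0) = 2 from rfl, show BZ (1,
      0) (2, 1) = -1 from rfl, show BZ (1, 0) (2, 2) = 2 from rfl, show BZ (1, 0) (3, 0) = 2
      from rfl, show BZ (1, 0) (3, 1) = -1 from rfl, show BZ (1, 0) (3, 2) = 2 from rfl]
  push_cast
  ring

theorem pos2_rowB4 (z : L1 → ℝ) : ∑ j, MB (1, 1) j * z j =
    0 - 1/9 * z (0, 0) + 2/9 * z (0, 1) + 2/9 * z (0, 2) - 1/9 * z (2, 0) - 4/9 * z (2, 1) -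
      1/9 * z (2, 2) + 2/9 * z (3, 0) - 1/9 * z (3, 1) + 2/9 * z (3, 2) := by
  rw [Fintype.sum_prod_type]
  simp only [Fin.sum_univ_four, Fin.sum_univ_three, MB]
  rw [show BZ (1, 1) (0, 0) = -1 from rfl, show BZ (1, 1) (0, 1) = 2 from rfl, show BZ (1, 1) (0,
      2) = 2 from rfl, show BZ (1, 1) (1, 0) = 0 from rfl, show BZ (1, 1) (1, 1) = 0 from rfl,
      show BZ (1, 1) (1, 2) = 0 from rfl, show BZ (1, 1) (2, 0) = -1 from rfl, show BZ (1, 1)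
      (2, 1) = -4 from rfl, show BZ (1, 1) (2, 2) = -1 from rfl, show BZ (1, 1) (3, 0) = 2 from
      rfl, show BZ (1, 1) (3, 1) = -1 from rfl, show BZ (1, 1) (3, 2) = 2 from rfl]
  push_cast
  ring

theorem pos2_rowB5 (z : L1 → ℝ) : ∑ j, MB (1, 2) j * z j =
    0 - 1/9 * z (0, 0) + 2/9 * z (0, 1) + 2/9 * z (0, 2) + 2/9 * z (2, 0) - 1/9 * z (2, 1) +
      2/9 * z (2, 2) - 1/9 * z (3, 0) - 4/9 * z (3, 1) - 1/9 * z (3, 2) := by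
  rw [Fintype.sum_prod_type]
  simp only [Fin.sum_univ_four, Fin.sum_univ_three, MB]
  rw [show BZ (1, 2) (0, 0) = -1 from rfl, show BZ (1, 2) (0, 1) = 2 from rfl, show BZ (1, 2) (0,
      2) = 2 from rfl, show BZ (1, 2) (1, 0) = 0 from rfl, show BZ (1, 2) (1, 1) = 0 from rfl,
      show BZ (1, 2) (1, 2) = 0 from rfl, show BZ (1, 2) (2, 0) = 2 from rfl, show BZ (1, 2)
      (2, 1) = -1 from rfl, show BZ (1, 2) (2, 2) = 2 from rfl, show BZ (1, 2) (3, 0) = -1 from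
      rfl, show BZ (1, 2) (3, 1) = -4 from rfl, show BZ (1, 2) (3, 2) = -1 from rfl]
  push_cast
  ring

theorem pos2_rowB6 (z : L1 → ℝ) : ∑ j, MB (2, 0) j * z j =
    0 - 1/9 * z (0, 0) - 4/9 * z (0, 1) - 1/9 * z (0, 2) + 2/9 * z (1, 0) - 1/9 * z (1, 1) +
      2/9 * z (1, 2) + 2/9 * z (3, 0) + 2/9 * z (3, 1) - 1/9 * z (3, 2) := by
  rw [Fintype.sum_prod_type]
  simp only [Fin.sum_univ_four, Fin.sum_univ_three, MB]
  rw [show BZ (2, 0) (0, 0) = -1 from rfl, show BZ (2, 0) (0, 1) = -4 from rfl, show BZ (2, 0)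
      (0, 2) = -1 from rfl, show BZ (2, 0) (1, 0) = 2 from rfl, show BZ (2, 0) (1, 1) = -1 from
      rfl, show BZ (2, 0) (1, 2) = 2 from rfl, show BZ (2, 0) (2, 0) = 0 from rfl, show BZ (2,
      0) (2, 1) = 0 from rfl, show BZ (2, 0) (2, 2) = 0 from rfl, show BZ (2, 0) (3, 0) = 2
      from rfl, show BZ (2, 0) (3, 1) = 2 from rfl, show BZ (2, 0) (3, 2) = -1 from rfl]
  push_cast
  ring

theorem pos2_rowB7 (z : L1 → ℝ) : ∑ j, MB (2, 1) j * z j =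
    2/9 * z (0, 0) - 1/9 * z (0, 1) + 2/9 * z (0, 2) - 1/9 * z (1, 0) - 4/9 * z (1, 1) - 1/9 *
      z (1, 2) + 2/9 * z (3, 0) + 2/9 * z (3, 1) - 1/9 * z (3, 2) := by
  rw [Fintype.sum_prod_type]
  simp only [Fin.sum_univ_four, Fin.sum_univ_three, MB]
  rw [show BZ (2, 1) (0, 0) = 2 from rfl, show BZ (2, 1) (0, 1) = -1 from rfl, show BZ (2, 1) (0,
      2) = 2 from rfl, show BZ (2, 1) (1, 0) = -1 from rfl, show BZ (2, 1) (1, 1) = -4 from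
      rfl, show BZ (2, 1) (1, 2) = -1 from rfl, show BZ (2, 1) (2, 0) = 0 from rfl, show BZ (2,
      1) (2, 1) = 0 from rfl, show BZ (2, 1) (2, 2) = 0 from rfl, show BZ (2, 1) (3, 0) = 2
      from rfl, show BZ (2, 1) (3, 1) = 2 from rfl, show BZ (2, 1) (3, 2) = -1 from rfl]
  push_cast
  ring

theorem pos2_rowB8 (z : L1 → ℝ) : ∑ j, MB (2, 2) j * z j =
    2/9 * z (0, 0) - 1/9 * z (0, 1) + 2/9 * z (0, 2) + 2/9 * z (1, 0) - 1/9 * z (1, 1) + 2/9 *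
      z (1, 2) - 1/9 * z (3, 0) - 1/9 * z (3, 1) - 4/9 * z (3, 2) := by
  rw [Fintype.sum_prod_type]
  simp only [Fin.sum_univ_four, Fin.sum_univ_three, MB]
  rw [show BZ (2, 2) (0, 0) = 2 from rfl, show BZ (2, 2) (0, 1) = -1 from rfl, show BZ (2, 2) (0,
      2) = 2 from rfl, show BZ (2, 2) (1, 0) = 2 from rfl, show BZ (2, 2) (1, 1) = -1 from rfl,
      show BZ (2, 2) (1, 2) = 2 from rfl, show BZ (2, 2) (2, 0) = 0 from rfl, show BZ (2, 2)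
      (2, 1) = 0 from rfl, show BZ (2, 2) (2, 2) = 0 from rfl, show BZ (2, 2) (3, 0) = -1 from
      rfl, show BZ (2, 2) (3, 1) = -1 from rfl, show BZ (2, 2) (3, 2) = -4 from rfl]
  push_cast
  ring

theorem pos2_rowB9 (z : L1 → ℝ) : ∑ j, MB (3, 0) j * z j =
    0 - 1/9 * z (0, 0) - 1/9 * z (0, 1) - 4/9 * z (0, 2) + 2/9 * z (1, 0) + 2/9 * z (1, 1) -
      1/9 * z (1, 2) + 2/9 * z (2, 0) + 2/9 * z (2, 1) - 1/9 * z (2, 2) := by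
  rw [Fintype.sum_prod_type]
  simp only [Fin.sum_univ_four, Fin.sum_univ_three, MB]
  rw [show BZ (3, 0) (0, 0) = -1 from rfl, show BZ (3, 0) (0, 1) = -1 from rfl, show BZ (3, 0)
      (0, 2) = -4 from rfl, show BZ (3, 0) (1, 0) = 2 from rfl, show BZ (3, 0) (1, 1) = 2 from
      rfl, show BZ (3, 0) (1, 2) = -1 from rfl, show BZ (3, 0) (2, 0) = 2 from rfl, show BZ (3,
      0) (2, 1) = 2 from rfl, show BZ (3, 0) (2, 2) = -1 from rfl, show BZ (3, 0) (3, 0) = 0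
      from rfl, show BZ (3, 0) (3, 1) = 0 from rfl, show BZ (3, 0) (3, 2) = 0 from rfl]
  push_cast
  ring

theorem pos2_rowB10 (z : L1 → ℝ) : ∑ j, MB (3, 1) j * z j =
    2/9 * z (0, 0) + 2/9 * z (0, 1) - 1/9 * z (0, 2) - 1/9 * z (1, 0) - 1/9 * z (1, 1) - 4/9 *
      z (1, 2) + 2/9 * z (2, 0) + 2/9 * z (2, 1) - 1/9 * z (2, 2) := by
  rw [Fintype.sum_prod_type]
  simp only [Fin.sum_univ_four, Fin.sum_univ_three, MB]
  rw [show BZ (3, 1) (0, 0) = 2 from rfl, show BZ (3, 1) (0, 1) = 2 from rfl, show BZ (3, 1) (0,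
      2) = -1 from rfl, show BZ (3, 1) (1, 0) = -1 from rfl, show BZ (3, 1) (1, 1) = -1 from
      rfl, show BZ (3, 1) (1, 2) = -4 from rfl, show BZ (3, 1) (2, 0) = 2 from rfl, show BZ (3,
      1) (2, 1) = 2 from rfl, show BZ (3, 1) (2, 2) = -1 from rfl, show BZ (3, 1) (3, 0) = 0
      from rfl, show BZ (3, 1) (3, 1) = 0 from rfl, show BZ (3, 1) (3, 2) = 0 from rfl]
  push_cast
  ring

theorem pos2_rowB11 (z : L1 → ℝ) : ∑ j, MB (3, 2) j * z j =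
    2/9 * z (0, 0) + 2/9 * z (0, 1) - 1/9 * z (0, 2) + 2/9 * z (1, 0) + 2/9 * z (1, 1) - 1/9 *
      z (1, 2) - 1/9 * z (2, 0) - 1/9 * z (2, 1) - 4/9 * z (2, 2) := by
  rw [Fintype.sum_prod_type]
  simp only [Fin.sum_univ_four, Fin.sum_univ_three, MB]
  rw [show BZ (3, 2) (0, 0) = 2 from rfl, show BZ (3, 2) (0, 1) = 2 from rfl, show BZ (3, 2) (0,
      2) = -1 from rfl, show BZ (3, 2) (1, 0) = 2 from rfl, show BZ (3, 2) (1, 1) = 2 from rfl,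
      show BZ (3, 2) (1, 2) = -1 from rfl, show BZ (3, 2) (2, 0) = -1 from rfl, show BZ (3, 2)
      (2, 1) = -1 from rfl, show BZ (3, 2) (2, 2) = -4 from rfl, show BZ (3, 2) (3, 0) = 0 from
      rfl, show BZ (3, 2) (3, 1) = 0 from rfl, show BZ (3, 2) (3, 2) = 0 from rfl]
  push_cast
  ring

/-! ### The abstract inequality -/

theorem pos2_cross {α : Type} [Fintype α] (U V : α → α → ℝ) (a b c d : α → ℝ)
    (hU1 : ∀ q, ∑ p, U p q = 0) (hU2 : ∀ p, ∑ q, U p q = 0)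
    (hV1 : ∀ q, ∑ p, V p q = 0) (hV2 : ∀ p, ∑ q, V p q = 0)
    (hb : ∑ q, b q = 0) (hd : ∑ q, d q = 0) :
    ∑ p, ∑ q, (U p q + a p + b q) * (V p q + c p + d q) =
      ∑ p, ∑ q, U p q * V p q + (Fintype.card α : ℝ) * ∑ p, a p * c p +
        (Fintype.card α : ℝ) * ∑ q, b q * d q := by
  have h1 : ∀ p, ∑ q, (U p q + a p + b q) * (V p q + c p + d q) =
      ∑ q, U p q * V p q + ∑ q, U p q * d q + (Fintype.card α : ℝ) * (a p * c p) +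
        ∑ q, b q * V p q + ∑ q, b q * d q := by
    intro p
    have e1 : ∀ q, (U p q + a p + b q) * (V p q + c p + d q) =
        U p q * V p q + U p q * c p + U p q * d q + a p * V p q + a p * c p + a p * d q +
          b q * V p q + b q * c p + b q * d q := fun q => by ring
    rw [Finset.sum_congr rfl fun q _ => e1 q]
    simp only [Finset.sum_add_distrib]
    rw [← Finset.sum_mul, ← Finset.mul_sum, ← Finset.mul_sum Finset.univ d (a p),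
      ← Finset.sum_mul Finset.univ b (c p), hU2, hV2, hb, hd]
    simp only [Finset.sum_const, Finset.card_univ, nsmul_eq_mul]
    ring
  rw [Finset.sum_congr rfl fun p _ => h1 p]
  simp only [Finset.sum_add_distrib]
  have h2 : ∑ p, ∑ q, U p q * d q = 0 := by
    rw [Finset.sum_comm]
    refine Finset.sum_eq_zero fun q _ => ?_
    rw [← Finset.sum_mul, hU1, zero_mul]
  have h3 : ∑ p, ∑ q, b q * V p q = 0 := by
    rw [Finset.sum_comm]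
    refine Finset.sum_eq_zero fun q _ => ?_
    rw [← Finset.mul_sum, hV1, mul_zero]
  rw [h2, h3, ← Finset.mul_sum]
  simp only [Finset.sum_const, Finset.card_univ, nsmul_eq_mul]
  ring

/-- The quadratic form for one matrix. -/
noncomputable def pos2_F {α : Type} [Fintype α] (A : α → α → ℝ) (h : α → α → ℝ) : ℝ :=
  ∑ p, ∑ q, (∑ p', A p p' * h p' q) * (∑ q', A q q' * h p q')

theorem pos2_Fdec {α : Type} [Fintype α] (A : α → α → ℝ) (r : ℝ) (hA : ∀ i j, A i j = A j i)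
    (hA1 : ∀ i, ∑ j, A i j = r) (k : α → α → ℝ) (a b : α → ℝ)
    (hk1 : ∀ q, ∑ p, k p q = 0) (hk2 : ∀ p, ∑ q, k p q = 0) (hb : ∑ q, b q = 0) :
    pos2_F A (fun p q => k p q + a p + b q) = pos2_F A k +
      (Fintype.card α : ℝ) * (r * ∑ p, a p * ∑ p', A p p' * a p') +
        (Fintype.card α : ℝ) * (r * ∑ q, b q * ∑ q', A q q' * b q') := by
  have hA1' : ∀ j, ∑ i, A i j = r := fun j => by
    rw [← hA1 j]
    exact Finset.sum_congr rfl fun i _ => hA i j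
  have hU : ∀ p q, ∑ p', A p p' * (k p' q + a p' + b q) =
      ∑ p', A p p' * k p' q + ∑ p', A p p' * a p' + r * b q := by
    intro p q
    simp only [mul_add, Finset.sum_add_distrib]
    rw [← Finset.sum_mul, hA1]
  have hV : ∀ p q, ∑ q', A q q' * (k p q' + a p + b q') =
      ∑ q', A q q' * k p q' + r * a p + ∑ q', A q q' * b q' := by
    intro p q
    simp only [mul_add, Finset.sum_add_distrib]
    rw [← Finset.sum_mul Finset.univ (fun q' => A q q') (a p), hA1]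
  have hs : ∀ z : α → ℝ, ∑ i, ∑ j, A i j * z j = r * ∑ j, z j := by
    intro z
    rw [Finset.sum_comm, Finset.mul_sum]
    refine Finset.sum_congr rfl fun j _ => ?_
    rw [← Finset.sum_mul, hA1']
  unfold pos2_F
  simp only [hU, hV]
  rw [pos2_cross (fun p q => ∑ p', A p p' * k p' q) (fun p q => ∑ q', A q q' * k p q')
    (fun p => ∑ p', A p p' * a p') (fun q => r * b q) (fun p => r * a p)
    (fun q => ∑ q', A q q' * b q')]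
  · congr 1
    · congr 1
      congr 1
      rw [Finset.mul_sum]
      exact Finset.sum_congr rfl fun p _ => by ring
    · congr 1
      rw [Finset.mul_sum]
      exact Finset.sum_congr rfl fun p _ => by ring
  · intro q
    show ∑ p, ∑ p', A p p' * k p' q = 0
    rw [hs fun p' => k p' q, hk1, mul_zero]
  · intro p
    show ∑ q, ∑ p', A p p' * k p' q = 0
    rw [Finset.sum_comm]
    refine Finset.sum_eq_zero fun p' _ => ?_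
    rw [← Finset.mul_sum, hk2, mul_zero]
  · intro q
    show ∑ p, ∑ q', A q q' * k p q' = 0
    rw [Finset.sum_comm]
    refine Finset.sum_eq_zero fun q' _ => ?_
    rw [← Finset.mul_sum, hk1, mul_zero]
  · intro p
    show ∑ q, ∑ q', A q q' * k p q' = 0
    rw [hs fun q' => k p q', hk2, mul_zero]
  · show ∑ q, r * b q = 0
    rw [← Finset.mul_sum, hb, mul_zero]
  · show ∑ q, ∑ q', A q q' * b q' = 0
    rw [hs, hb, mul_zero]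

/-- The form on a general vector. -/
theorem pos2_H3' {α : Type} [Fintype α] (A : α → α → ℝ) (hA : ∀ i j, A i j = A j i)
    (hA1 : ∀ i, ∑ j, A i j = 4) (hc : (Fintype.card α : ℝ) = 12)
    (H3 : ∀ z : α → ℝ, ∑ i, z i = 0 → ∑ i, z i * ∑ j, A i j * z j ≤ ∑ i, z i ^ 2)
    (z : α → ℝ) : ∑ i, z i * ∑ j, A i j * z j ≤ ∑ i, z i ^ 2 + (∑ i, z i) ^ 2 / 4 := by
  set s : ℝ := (∑ i, z i) / 12 with hs
  have h0 : ∑ i, (z i - s) = 0 := by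
    rw [Finset.sum_sub_distrib, Finset.sum_const, Finset.card_univ, nsmul_eq_mul, hc, hs]
    ring
  have h1 := H3 (fun i => z i - s) h0
  have h2 : ∀ i, ∑ j, A i j * (z j - s) = ∑ j, A i j * z j - 4 * s := by
    intro i
    simp only [mul_sub, Finset.sum_sub_distrib]
    rw [← Finset.sum_mul, hA1]
  have hA1' : ∀ j, ∑ i, A i j = 4 := fun j => by
    rw [← hA1 j]
    exact Finset.sum_congr rfl fun i _ => hA i j
  have h3 : ∑ i, ∑ j, A i j * z j = 4 * ∑ j, z j := by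
    rw [Finset.sum_comm, Finset.mul_sum]
    refine Finset.sum_congr rfl fun j _ => ?_
    rw [← Finset.sum_mul, hA1']
  have h4 : ∑ i, (z i - s) * ∑ j, A i j * (z j - s) =
      ∑ i, z i * ∑ j, A i j * z j - 4 * s * ∑ i, z i - s * (4 * ∑ j, z j) + 48 * s ^ 2 := by
    rw [← h3]
    have e1 : ∀ i, (z i - s) * ∑ j, A i j * (z j - s) =
        z i * ∑ j, A i j * z j - 4 * s * z i - s * ∑ j, A i j * z j + 4 * s ^ 2 := by
      intro i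
      rw [h2]
      ring
    rw [Finset.sum_congr rfl fun i _ => e1 i]
    simp only [Finset.sum_add_distrib, Finset.sum_sub_distrib, ← Finset.mul_sum, Finset.sum_const,
      Finset.card_univ, nsmul_eq_mul, hc]
    ring
  have h5 : ∑ i, (z i - s) ^ 2 = ∑ i, z i ^ 2 - 2 * s * ∑ i, z i + 12 * s ^ 2 := by
    have e1 : ∀ i, (z i - s) ^ 2 = z i ^ 2 - 2 * s * z i + s ^ 2 := fun i => by ring
    rw [Finset.sum_congr rfl fun i _ => e1 i]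
    simp only [Finset.sum_add_distrib, Finset.sum_sub_distrib, ← Finset.mul_sum, Finset.sum_const,
      Finset.card_univ, nsmul_eq_mul, hc]
  rw [h4, h5] at h1
  have hs' : ∑ i, z i = 12 * s := by rw [hs]; ring
  rw [hs'] at h1 ⊢
  nlinarith [h1]

theorem pos2_abs {α : Type} [Fintype α] (A B : α → α → ℝ) (hA : ∀ i j, A i j = A j i)
    (hB : ∀ i j, B i j = B j i) (hA1 : ∀ i, ∑ j, A i j = 4) (hB1 : ∀ i, ∑ j, B i j = 0)
    (hc : (Fintype.card α : ℝ) = 12)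
    (H2 : ∀ z : α → ℝ, ∑ i, z i = 0 →
      ∑ i, ((∑ j, A i j * z j) ^ 2 + 2 * (∑ j, B i j * z j) ^ 2) ≤ 24 / 5 * ∑ i, z i ^ 2)
    (H3 : ∀ z : α → ℝ, ∑ i, z i = 0 → ∑ i, z i * ∑ j, A i j * z j ≤ ∑ i, z i ^ 2)
    (h : α → α → ℝ) :
    6 / 5 * ∑ p, ∑ q, h p q ^ 2 ≤ 3 * ∑ p, ∑ q, h p q ^ 2 - 3 / 8 * (pos2_F A h - 2 * pos2_F B h) +
      9 * ((∑ p, ∑ q, h p q) / 12) ^ 2 := by
  set a : α → ℝ := fun p => (∑ q, h p q) / 12 with ha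
  set b : α → ℝ := fun q => (∑ p, (h p q - a p)) / 12 with hb
  set k : α → α → ℝ := fun p q => h p q - a p - b q with hk
  have hb0 : ∑ q, b q = 0 := by
    simp only [hb]
    rw [← Finset.sum_div, Finset.sum_comm]
    have e1 : ∀ p, ∑ q, (h p q - a p) = 0 := by
      intro p
      rw [Finset.sum_sub_distrib, Finset.sum_const, Finset.card_univ, nsmul_eq_mul, hc]
      simp only [ha]
      ring
    rw [Finset.sum_congr rfl fun p _ => e1 p]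
    simp
  have hk1 : ∀ q, ∑ p, k p q = 0 := by
    intro q
    simp only [hk]
    rw [Finset.sum_sub_distrib, Finset.sum_const, Finset.card_univ, nsmul_eq_mul, hc]
    simp only [hb]
    ring
  have hk2 : ∀ p, ∑ q, k p q = 0 := by
    intro p
    simp only [hk]
    rw [Finset.sum_sub_distrib, Finset.sum_sub_distrib, hb0, Finset.sum_const, Finset.card_univ,
      nsmul_eq_mul, hc]
    simp only [ha]
    ring
  have hh : h = fun p q => k p q + a p + b q := by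
    funext p q
    simp only [hk]
    ring
  have hFA : pos2_F A h = pos2_F A k + 12 * (4 * ∑ p, a p * ∑ p', A p p' * a p') +
      12 * (4 * ∑ q, b q * ∑ q', A q q' * b q') := by
    rw [hh, pos2_Fdec A 4 hA hA1 k a b hk1 hk2 hb0, hc]
  have hFB : pos2_F B h = pos2_F B k := by
    rw [hh, pos2_Fdec B 0 hB hB1 k a b hk1 hk2 hb0]
    ring
  have hsq : ∑ p, ∑ q, h p q ^ 2 = ∑ p, ∑ q, k p q ^ 2 + 12 * ∑ p, a p ^ 2 +
      12 * ∑ q, b q ^ 2 := by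
    have e1 := pos2_cross k k a b a b hk1 hk2 hk1 hk2 hb0 hb0
    rw [hc] at e1
    have e2 : ∀ p q, h p q = k p q + a p + b q := fun p q => by rw [hh]
    simp only [e2, pow_two]
    exact e1
  have hsum : ∑ p, ∑ q, h p q = 12 * ∑ p, a p := by
    rw [Finset.mul_sum]
    refine Finset.sum_congr rfl fun p _ => ?_
    simp only [ha]
    ring
  have hAt : ∀ i j, A i j = A j i := hA
  -- the bound for the doubly centred part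
  have hcol : ∑ p, ∑ q, ((∑ p', A p p' * k p' q) ^ 2 + 2 * (∑ p', B p p' * k p' q) ^ 2) ≤
      24 / 5 * ∑ p, ∑ q, k p q ^ 2 := by
    rw [Finset.sum_comm, Finset.sum_comm (f := fun p q => k p q ^ 2), Finset.mul_sum]
    exact Finset.sum_le_sum fun q _ => H2 (fun p => k p q) (hk1 q)
  have hrow : ∑ p, ∑ q, ((∑ q', A q q' * k p q') ^ 2 + 2 * (∑ q', B q q' * k p q') ^ 2) ≤
      24 / 5 * ∑ p, ∑ q, k p q ^ 2 := by
    rw [Finset.mul_sum]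
    exact Finset.sum_le_sum fun p _ => H2 (fun q => k p q) (hk2 p)
  have hPhi : pos2_F A k - 2 * pos2_F B k ≤ 24 / 5 * ∑ p, ∑ q, k p q ^ 2 := by
    have e1 : pos2_F A k - 2 * pos2_F B k ≤
        1 / 2 * (∑ p, ∑ q, ((∑ p', A p p' * k p' q) ^ 2 + 2 * (∑ p', B p p' * k p' q) ^ 2)) +
        1 / 2 * (∑ p, ∑ q, ((∑ q', A q q' * k p q') ^ 2 + 2 * (∑ q', B q q' * k p q') ^ 2)) := by
      unfold pos2_F
      simp only [Finset.mul_sum (s := Finset.univ) (f := fun p => ∑ q, (∑ p', B p p' * k p' q) *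
        (∑ q', B q q' * k p q'))]
      rw [Finset.mul_sum, Finset.mul_sum, ← Finset.sum_sub_distrib, ← Finset.sum_add_distrib]
      refine Finset.sum_le_sum fun p _ => ?_
      rw [Finset.mul_sum, Finset.mul_sum, Finset.mul_sum, ← Finset.sum_sub_distrib,
        ← Finset.sum_add_distrib]
      refine Finset.sum_le_sum fun q _ => ?_
      nlinarith [sq_nonneg ((∑ p', A p p' * k p' q) - (∑ q', A q q' * k p q')),
        sq_nonneg ((∑ p', B p p' * k p' q) + (∑ q', B q q' * k p q'))]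
    linarith
  have h3a := pos2_H3' A hA hA1 hc H3 a
  have h3b := H3 b hb0
  have pa : 0 ≤ ∑ p, a p ^ 2 := Finset.sum_nonneg fun p _ => sq_nonneg _
  have pb : 0 ≤ ∑ p, b p ^ 2 := Finset.sum_nonneg fun p _ => sq_nonneg _
  rw [hFA, hFB, hsq, hsum]
  nlinarith [sq_nonneg (∑ p, a p)]

/-! ### The trilinear form at the peak -/

theorem pos2_sum4 {α β : Type} [Fintype α] [Fintype β] (F : α → α → β → β → ℂ) :
    ∑ b, ∑ c, ∑ i, ∑ j, F b c i j = ∑ i, ∑ j, ∑ b, ∑ c, F b c i j := by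
  calc ∑ b, ∑ c, ∑ i, ∑ j, F b c i j = ∑ b, ∑ i, ∑ c, ∑ j, F b c i j :=
        Finset.sum_congr rfl fun b _ => Finset.sum_comm
    _ = ∑ i, ∑ b, ∑ c, ∑ j, F b c i j := Finset.sum_comm
    _ = ∑ i, ∑ b, ∑ j, ∑ c, F b c i j :=
        Finset.sum_congr rfl fun i _ => Finset.sum_congr rfl fun b _ => Finset.sum_comm
    _ = ∑ i, ∑ j, ∑ b, ∑ c, F b c i j := Finset.sum_congr rfl fun i _ => Finset.sum_comm

theorem pos2_adj {α β : Type} [Fintype α] [Fintype β] (N : α → α → ℂ) (S : α → β → ℂ)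
    (h : β → ℂ) :
    ∑ b, ∑ c, N b c * (∑ i, S b i * h i) * (∑ j, S c j * h j) =
      ∑ i, ∑ j, h i * h j * ∑ b, ∑ c, N b c * S b i * S c j := by
  have e1 : ∀ b c, N b c * (∑ i, S b i * h i) * (∑ j, S c j * h j) =
      ∑ i, ∑ j, h i * h j * (N b c * S b i * S c j) := by
    intro b c
    rw [mul_assoc, Finset.sum_mul_sum, Finset.mul_sum]
    refine Finset.sum_congr rfl fun i _ => ?_
    rw [Finset.mul_sum]
    exact Finset.sum_congr rfl fun j _ => by ring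
  rw [Finset.sum_congr rfl fun b _ => Finset.sum_congr rfl fun c _ => e1 b c, pos2_sum4]
  refine Finset.sum_congr rfl fun i _ => Finset.sum_congr rfl fun j _ => ?_
  simp only [Finset.mul_sum]

theorem pos2_prod1 {α : Type} [Fintype α] (f g : α → ℂ) :
    ∑ b : α × α, f b.1 * g b.2 = (∑ b, f b) * ∑ b, g b := by
  rw [Finset.sum_mul_sum, Fintype.sum_prod_type]

theorem pos2_prod2 {α : Type} [Fintype α] (F G : α → α → ℂ) :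
    ∑ b : α × α, ∑ c : α × α, F b.1 c.1 * G b.2 c.2 =
      (∑ b, ∑ c, F b c) * ∑ b, ∑ c, G b c := by
  have e1 : ∀ b : α × α, ∑ c : α × α, F b.1 c.1 * G b.2 c.2 =
      (∑ c, F b.1 c) * ∑ c, G b.2 c := fun b => pos2_prod1 (F b.1) (G b.2)
  rw [Finset.sum_congr rfl fun b _ => e1 b]
  exact pos2_prod1 (fun b => ∑ c, F b c) (fun b => ∑ c, G b c)

/-- The constant of `S1`. -/
noncomputable def pos2_sig : ℂ := ((Real.sqrt 2 : ℂ) - Complex.I) / 3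

theorem pos2_sumS (f : L1 → ℂ) (i : L1) :
    ∑ b, f b * S1 b i = pos2_sig * ∑ k, f (i.1, k) + Complex.I * f i := by
  obtain ⟨d, k0⟩ := i
  rw [Fintype.sum_prod_type, Finset.sum_eq_single d]
  · have e1 : ∀ k, f (d, k) * S1 (d, k) (d, k0) =
        pos2_sig * f (d, k) + (if k = k0 then Complex.I * f (d, k) else 0) := by
      intro k
      unfold S1 pos2_sig
      by_cases h : k = k0
      · simp only [h, if_true]
        ring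
      · simp only [h, if_true, if_false]
        ring
    rw [Finset.sum_congr rfl fun k _ => e1 k, Finset.sum_add_distrib, ← Finset.mul_sum,
      Finset.sum_ite_eq' Finset.univ k0]
    simp
  · intro d' _ hd
    refine Finset.sum_eq_zero fun k _ => ?_
    unfold S1
    simp only [hd, if_false, mul_zero]
  · intro hd
    exact absurd (Finset.mem_univ _) hd

theorem pos2_symS (a i : L1) : S1 a i = S1 i a := by
  unfold S1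
  simp only [eq_comm]

theorem pos2_N2 : ∀ i j : L1, ∑ k, pos2_n4 (i.1, k) j = pos2_n2 i j := by decide

theorem pos2_N1 : ∀ i j : L1, ∑ k, pos2_n2 i (j.1, k) = 2 * pos2_n1 i j := by decide

theorem pos2_N2' : ∀ i j : L1, ∑ k, pos2_n4 i (j.1, k) = pos2_n2 j i := by decide

/-- The matrix of the form of the first model. -/
theorem pos2_M (i j : L1) : ∑ b, ∑ c, (pos2_n4 b c : ℂ) * S1 b i * S1 c j =
    (MA i j : ℂ) + (Real.sqrt 2 : ℂ) * Complex.I * (MB i j : ℂ) := by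
  have h1 : ∀ c, ∑ b, (pos2_n4 b c : ℂ) * S1 b i =
      pos2_sig * (pos2_n2 i c : ℂ) + Complex.I * (pos2_n4 i c : ℂ) := by
    intro c
    rw [pos2_sumS (fun b => (pos2_n4 b c : ℂ)) i, ← pos2_N2 i c]
    push_cast
    rfl
  have h2 : ∑ b, ∑ c, (pos2_n4 b c : ℂ) * S1 b i * S1 c j =
      ∑ c, (pos2_sig * (pos2_n2 i c : ℂ) + Complex.I * (pos2_n4 i c : ℂ)) * S1 c j := by
    rw [Finset.sum_comm]
    refine Finset.sum_congr rfl fun c _ => ?_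
    rw [← Finset.sum_mul, h1]
  rw [h2, pos2_sumS (fun c => pos2_sig * (pos2_n2 i c : ℂ) + Complex.I * (pos2_n4 i c : ℂ)) j,
    Finset.sum_add_distrib, ← Finset.mul_sum, ← Finset.mul_sum]
  have h3 : ∑ k, (pos2_n2 i (j.1, k) : ℂ) = 2 * (pos2_n1 i j : ℂ) := by
    have := pos2_N1 i j
    exact_mod_cast this
  have h4 : ∑ k, (pos2_n4 i (j.1, k) : ℂ) = (pos2_n2 j i : ℂ) := by
    have := pos2_N2' i j
    exact_mod_cast this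
  rw [h3, h4]
  have hs : (Real.sqrt 2 : ℂ) ^ 2 = 2 := by
    rw [← Complex.ofReal_pow, Real.sq_sqrt (by norm_num)]
    norm_num
  have hI : Complex.I ^ 2 = -1 := Complex.I_sq
  unfold MA MB AZ BZ pos2_sig
  push_cast
  linear_combination (2 / 9 * (pos2_n1 i j : ℂ)) * hs +
    (2 / 9 * (pos2_n1 i j : ℂ) - 1 / 3 * (pos2_n2 i j : ℂ) - 1 / 3 * (pos2_n2 j i : ℂ) +
      (pos2_n4 i j : ℂ)) * hI

theorem pos2_w1 : ∀ b c : L1, ∑ a, w1 a b c = (pos2_n4 b c : ℝ) := by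
  have h : ∀ b c : L1, (∑ a : L1, if (a.1 ≠ b.1 ∧ a.1 ≠ c.1 ∧ b.1 ≠ c.1 ∧ vc a = vc b ∧
      vc a = vc c) then (1 : ℤ) else 0) = pos2_n4 b c := by decide
  intro b c
  rw [← h b c]
  unfold w1
  push_cast
  refine Finset.sum_congr rfl fun a _ => ?_
  split_ifs <;> simp_all

theorem pos2_lu (a : L1 × L1) : m2.l a u2 = 1 / 6 := by
  have h0 : ∀ a : L1, ∑ i, S1 a i = (Real.sqrt 2 : ℂ) := by
    intro a
    have h1 := pos2_sumS (fun _ => 1) a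
    simp only [one_mul, Finset.sum_const, Finset.card_univ, Fintype.card_fin, nsmul_eq_mul,
      mul_one] at h1
    rw [Finset.sum_congr rfl fun i _ => pos2_symS a i, h1]
    unfold pos2_sig
    push_cast
    ring
  have hs : (Real.sqrt 2 : ℂ) ^ 2 = 2 := by
    rw [← Complex.ofReal_pow, Real.sq_sqrt (by norm_num)]
    norm_num
  unfold Mdl.l u2
  rw [← Finset.sum_mul]
  have h2 : ∑ i, m2.S a i = (Real.sqrt 2 : ℂ) * (Real.sqrt 2 : ℂ) := by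
    have := pos2_prod1 (fun i => S1 a.1 i) (fun i => S1 a.2 i)
    rw [h0, h0] at this
    exact this
  rw [h2]
  push_cast
  linear_combination (1 / 12) * hs

theorem pos2_T (h : L1 × L1 → ℝ) : m2.T u2 h h = 1 / 6 * ∑ i, ∑ j, (h i : ℂ) * (h j : ℂ) *
    (((MA i.1 j.1 : ℂ) + (Real.sqrt 2 : ℂ) * Complex.I * (MB i.1 j.1 : ℂ)) *
      ((MA i.2 j.2 : ℂ) + (Real.sqrt 2 : ℂ) * Complex.I * (MB i.2 j.2 : ℂ))) := by
  have h1 : m2.T u2 h h = 1 / 6 * ∑ b, ∑ c, ((pos2_n4 b.1 c.1 : ℂ) * (pos2_n4 b.2 c.2 : ℂ)) *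
      (∑ i, m2.S b i * (h i : ℂ)) * (∑ j, m2.S c j * (h j : ℂ)) := by
    unfold Mdl.T
    rw [Finset.sum_comm, Finset.mul_sum]
    refine Finset.sum_congr rfl fun b _ => ?_
    rw [Finset.sum_comm, Finset.mul_sum]
    refine Finset.sum_congr rfl fun c _ => ?_
    have e1 : ∀ a, (m2.w a b c : ℂ) * m2.l a u2 * m2.l b h * m2.l c h =
        (m2.w a b c : ℂ) * (1 / 6 * m2.l b h * m2.l c h) := by
      intro a
      rw [pos2_lu]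
      ring
    rw [Finset.sum_congr rfl fun a _ => e1 a, ← Finset.sum_mul]
    have e2 : ∑ a, (m2.w a b c : ℂ) = (pos2_n4 b.1 c.1 : ℂ) * (pos2_n4 b.2 c.2 : ℂ) := by
      have e3 := pos2_prod1 (fun a => (w1 a b.1 c.1 : ℂ)) (fun a => (w1 a b.2 c.2 : ℂ))
      have e4 : ∀ b c : L1, ∑ a, (w1 a b c : ℂ) = (pos2_n4 b c : ℂ) := by
        intro b c
        have := pos2_w1 b c
        have e5 : ((∑ a, w1 a b c : ℝ) : ℂ) = ((pos2_n4 b c : ℝ) : ℂ) := by rw [this]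
        push_cast at e5
        exact e5
      rw [e4, e4] at e3
      rw [← e3]
      refine Finset.sum_congr rfl fun a _ => ?_
      show ((w1 a.1 b.1 c.1 * w1 a.2 b.2 c.2 : ℝ) : ℂ) = _
      push_cast
      rfl
    rw [e2]
    unfold Mdl.l
    ring
  rw [h1, pos2_adj]
  congr 1
  refine Finset.sum_congr rfl fun i _ => Finset.sum_congr rfl fun j _ => ?_
  congr 1
  rw [← pos2_M i.1 j.1, ← pos2_M i.2 j.2, ← pos2_prod2]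
  refine Finset.sum_congr rfl fun b _ => Finset.sum_congr rfl fun c _ => ?_
  show _ * (S1 b.1 i.1 * S1 b.2 i.2) * (S1 c.1 j.1 * S1 c.2 j.2) = _
  ring

theorem pos2_re (h : L1 × L1 → ℝ) : (m2.T u2 h h).re = 1 / 6 * ∑ i, ∑ j, h i * h j *
    (MA i.1 j.1 * MA i.2 j.2 - 2 * (MB i.1 j.1 * MB i.2 j.2)) := by
  have hs : (Real.sqrt 2 : ℂ) ^ 2 = 2 := by
    rw [← Complex.ofReal_pow, Real.sq_sqrt (by norm_num)]
    norm_num
  have hI : Complex.I ^ 2 = -1 := Complex.I_sq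
  have h1 : m2.T u2 h h =
      ((1 / 6 * ∑ i, ∑ j, h i * h j *
        (MA i.1 j.1 * MA i.2 j.2 - 2 * (MB i.1 j.1 * MB i.2 j.2)) : ℝ) : ℂ) +
      ((1 / 6 * ∑ i, ∑ j, h i * h j * (Real.sqrt 2 *
        (MA i.1 j.1 * MB i.2 j.2 + MB i.1 j.1 * MA i.2 j.2)) : ℝ) : ℂ) * Complex.I := by
    rw [pos2_T]
    push_cast
    rw [mul_assoc (1 / 6 : ℂ) _ Complex.I, ← mul_add, Finset.sum_mul, ← Finset.sum_add_distrib]
    congr 1
    refine Finset.sum_congr rfl fun i _ => ?_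
    rw [Finset.sum_mul, ← Finset.sum_add_distrib]
    refine Finset.sum_congr rfl fun j _ => ?_
    linear_combination ((h i : ℂ) * (h j : ℂ) * (MB i.1 j.1 : ℂ) * (MB i.2 j.2 : ℂ) *
      Complex.I ^ 2) * hs + (2 * (h i : ℂ) * (h j : ℂ) * (MB i.1 j.1 : ℂ) * (MB i.2 j.2 : ℂ)) * hI
  rw [h1]
  simp only [Complex.add_re, Complex.mul_re, Complex.ofReal_re, Complex.ofReal_im, Complex.I_re,
    Complex.I_im, mul_zero, zero_mul, sub_zero, add_zero]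

/-- The form as an iterated sum. -/
theorem pos2_form (A : L1 → L1 → ℝ) (hA : ∀ i j, A i j = A j i) (h : L1 × L1 → ℝ) :
    ∑ i, ∑ j, h i * h j * (A i.1 j.1 * A i.2 j.2) = pos2_F A (fun p q => h (p, q)) := by
  unfold pos2_F
  have e1 : ∀ p q, (∑ p', A p p' * h (p', q)) * (∑ q', A q q' * h (p, q')) =
      ∑ p', ∑ q', h (p', q) * h (p, q') * (A p' p * A q q') := by
    intro p q
    rw [Finset.sum_mul_sum]
    refine Finset.sum_congr rfl fun p' _ => Finset.sum_congr rfl fun q' _ => ?_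
    rw [hA p' p]
    ring
  rw [Finset.sum_congr rfl fun p _ => Finset.sum_congr rfl fun q _ => e1 p q]
  rw [Fintype.sum_prod_type]
  have e2 : ∀ p q, ∑ j : L1 × L1, h (p, q) * h j * (A p j.1 * A q j.2) =
      ∑ p', ∑ q', h (p, q) * h (p', q') * (A p p' * A q q') := by
    intro p q
    rw [Fintype.sum_prod_type]
  rw [Finset.sum_congr rfl fun p _ => Finset.sum_congr rfl fun q _ => e2 p q]
  -- exchange the roles of the first coordinates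
  calc ∑ p, ∑ q, ∑ p', ∑ q', h (p, q) * h (p', q') * (A p p' * A q q') =
      ∑ p, ∑ p', ∑ q, ∑ q', h (p, q) * h (p', q') * (A p p' * A q q') :=
        Finset.sum_congr rfl fun p _ => Finset.sum_comm
    _ = ∑ p', ∑ p, ∑ q, ∑ q', h (p, q) * h (p', q') * (A p p' * A q q') := Finset.sum_comm
    _ = ∑ p', ∑ q, ∑ p, ∑ q', h (p, q) * h (p', q') * (A p p' * A q q') :=
        Finset.sum_congr rfl fun p' _ => Finset.sum_comm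

theorem pos2_symA (i j : L1) : MA i j = MA j i := by
  have h : ∀ i j : L1, AZ i j = AZ j i := by decide
  unfold MA
  rw [h]

theorem pos2_symB (i j : L1) : MB i j = MB j i := by
  have h : ∀ i j : L1, BZ i j = BZ j i := by decide
  unfold MB
  rw [h]

theorem pos2_rsA (i : L1) : ∑ j, MA i j = 4 := by
  have h : ∀ i : L1, ∑ j, AZ i j = 36 := by decide
  unfold MA
  rw [← Finset.sum_div]
  have h1 : ∑ j, (AZ i j : ℝ) = 36 := by exact_mod_cast h i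
  rw [h1]
  norm_num

theorem pos2_rsB (i : L1) : ∑ j, MB i j = 0 := by
  have h : ∀ i : L1, ∑ j, BZ i j = 0 := by decide
  unfold MB
  rw [← Finset.sum_div]
  have h1 : ∑ j, (BZ i j : ℝ) = 0 := by exact_mod_cast h i
  rw [h1]
  norm_num

theorem pos2_sum12 (f : L1 → ℝ) : ∑ i, f i = f (0, 0) + f (0, 1) + f (0, 2) + f (1, 0) +
    f (1, 1) + f (1, 2) + f (2, 0) + f (2, 1) + f (2, 2) + f (3, 0) + f (3, 1) + f (3, 2) := by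
  rw [Fintype.sum_prod_type]
  simp only [Fin.sum_univ_four, Fin.sum_univ_three]
  ring

theorem pos2_H2 (z : L1 → ℝ) (hz : ∑ i, z i = 0) :
    ∑ i, ((∑ j, MA i j * z j) ^ 2 + 2 * (∑ j, MB i j * z j) ^ 2) ≤ 24 / 5 * ∑ i, z i ^ 2 := by
  rw [pos2_sum12] at hz
  have h := pos2_r2 (z (0, 0)) (z (0, 1)) (z (0, 2)) (z (1, 0)) (z (1, 1)) (z (1, 2)) (z (2, 0))
    (z (2, 1)) (z (2, 2)) (z (3, 0)) (z (3, 1)) (z (3, 2)) hz
  rw [pos2_sum12 (fun i => z i ^ 2),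
    pos2_sum12 (fun i => (∑ j, MA i j * z j) ^ 2 + 2 * (∑ j, MB i j * z j) ^ 2)]
  rw [pos2_rowA0, pos2_rowA1, pos2_rowA2, pos2_rowA3, pos2_rowA4, pos2_rowA5, pos2_rowA6,
    pos2_rowA7, pos2_rowA8, pos2_rowA9, pos2_rowA10, pos2_rowA11, pos2_rowB0, pos2_rowB1,
    pos2_rowB2, pos2_rowB3, pos2_rowB4, pos2_rowB5, pos2_rowB6, pos2_rowB7, pos2_rowB8,
    pos2_rowB9, pos2_rowB10, pos2_rowB11]
  refine le_trans (le_of_eq ?_) h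
  simp only [add_assoc]

theorem pos2_H3 (z : L1 → ℝ) (hz : ∑ i, z i = 0) :
    ∑ i, z i * ∑ j, MA i j * z j ≤ ∑ i, z i ^ 2 := by
  rw [pos2_sum12] at hz
  have h := pos2_r3 (z (0, 0)) (z (0, 1)) (z (0, 2)) (z (1, 0)) (z (1, 1)) (z (1, 2)) (z (2, 0))
    (z (2, 1)) (z (2, 2)) (z (3, 0)) (z (3, 1)) (z (3, 2)) hz
  rw [pos2_sum12 (fun i => z i ^ 2), pos2_sum12 (fun i => z i * ∑ j, MA i j * z j)]
  rw [pos2_rowA0, pos2_rowA1, pos2_rowA2, pos2_rowA3, pos2_rowA4, pos2_rowA5, pos2_rowA6,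
    pos2_rowA7, pos2_rowA8, pos2_rowA9, pos2_rowA10, pos2_rowA11]
  exact h

/-- POS2. -/
theorem POS2 : ST_POS2 := by
  refine ⟨6 / 5, by norm_num, fun h => ?_⟩
  have hc : (Fintype.card L1 : ℝ) = 12 := by
    simp only [Fintype.card_prod, Fintype.card_fin]
    norm_num
  have key := pos2_abs MA MB pos2_symA pos2_symB pos2_rsA pos2_rsB hc pos2_H2 pos2_H3
    (fun p q => h (p, q))
  have e1 : nsq h = ∑ p, ∑ q, h (p, q) ^ 2 := by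
    unfold nsq
    rw [Fintype.sum_prod_type]
  have e2 : ∑ i, u2 i * h i = (∑ p, ∑ q, h (p, q)) / 12 := by
    unfold u2
    rw [← Finset.mul_sum, Fintype.sum_prod_type]
    ring
  have e3 : (m2.T u2 h h).re = 1 / 6 * (pos2_F MA (fun p q => h (p, q)) -
      2 * pos2_F MB (fun p q => h (p, q))) := by
    rw [pos2_re, ← pos2_form MA pos2_symA h, ← pos2_form MB pos2_symB h, Finset.mul_sum
      (s := Finset.univ) (a := (2 : ℝ)), ← Finset.sum_sub_distrib]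
    congr 1
    refine Finset.sum_congr rfl fun i _ => ?_
    rw [Finset.mul_sum, ← Finset.sum_sub_distrib]
    exact Finset.sum_congr rfl fun j _ => by ring
  have e4 : (QT m2.T u2 (8 / 3) h).re = 3 * nsq h - 9 / 4 * (m2.T u2 h h).re +
      9 * (∑ i, u2 i * h i) ^ 2 := by
    unfold QT
    have e5 : (3 * (nsq h : ℂ) - 6 * m2.T u2 h h / ((8 / 3 : ℝ) : ℂ) +
        9 * ((∑ i, u2 i * h i : ℝ) : ℂ) ^ 2) =
        ((3 * nsq h + 9 * (∑ i, u2 i * h i) ^ 2 : ℝ) : ℂ) - ((9 / 4 : ℝ) : ℂ) * m2.T u2 h h := by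
      push_cast
      ring
    rw [e5, Complex.sub_re, Complex.re_ofReal_mul, Complex.ofReal_re]
    ring
  rw [e4, e3, e2, e1]
  linarith

end Pool.Agent.Helper11.T4
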